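import Pool.Agent.MP_682409_ag.Q

/-! The hypothesis on zero-cycles of the generic fibre. -/

namespace Pool.Agent.MP_682409_ag.Tor

open CategoryTheory Limits AlgebraicGeometry Q

noncomputable section

variable {K : CommRingCat.{0}} {Y : Scheme.{0}}

/-- The structure map from the base to the residue field at `y`. -/
def sR (q : Y ⟶ Spec K) (y : Y) : K →+* Y.residueField y :=
  (Y.residue y).hom.comp ((Scheme.ΓSpecIso K).inv ≫ q.appTop ≫ Y.presheaf.germ ⊤ y trivial).hom

/-- `z` is the generic point of an integral curve: its residue field has transcendence degree one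
over the base field. -/
def IsCurve (q : Y ⟶ Spec K) (z : Y) : Prop :=
  @Algebra.trdeg K (Y.residueField z) _ _ (sR q z).toAlgebra = 1

/-- `e` is a finite family of rational functions (classes in `K_1`) on integral curves. -/
def IsFam (q : Y ⟶ Spec K) (e : Co Y) : Prop :=
  {z | e z ≠ 0}.Finite ∧ ∀ z, e z ∈ Kn _ 1 ∧ (e z ≠ 0 → IsCurve q z)

/-- The multiplicity at `w` (a class in `K_0`) of the sum of the divisors of the family `e`. -/
def mult (e : Co Y) (w : Y) : KM (Y.residueField w) := ∑ᶠ (z : Y) (_ : z ⤳ w), bd (Gr z w) (e z)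

/-- The base change of `Y` along `φ`. -/
def YL (q : Y ⟶ Spec K) {L : CommRingCat.{0}} (φ : K ⟶ L) : Scheme.{0} := pullback q (Spec.map φ)

/-- The projection to `Y`. -/
def prY (q : Y ⟶ Spec K) {L : CommRingCat.{0}} (φ : K ⟶ L) : YL q φ ⟶ Y := pullback.fst _ _

/-- The structure map of the base change. -/
def prL (q : Y ⟶ Spec K) {L : CommRingCat.{0}} (φ : K ⟶ L) : YL q φ ⟶ Spec L := pullback.snd _ _

open Classical in
/-- For every field `L` over `K` and every `L`-rational point `x` of `Y_L`, the zero-cycle `N [x]`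
is rationally equivalent on `Y_L` to a cycle supported over closed points of `Y`. -/
def Tors (N : ℕ) (q : Y ⟶ Spec K) : Prop :=
  ∀ (L : Type) [Field L] (φ : K ⟶ CommRingCat.of L) (x : YL q φ),
    Function.Bijective (sR (prL q φ) x) → ∃ e : Co (YL q φ), IsFam (prL q φ) e ∧
      ∀ w : YL q φ, IsClosed {w} → ¬IsClosed {prY q φ w} → mult e w = if w = x then N else 0

end

end Pool.Agent.MP_682409_ag.Tor
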