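import Pool.Agent.MP_682409_ag.Tor.D

/-! The dimension of the generic fibre. -/

namespace Pool.Agent.MP_682409_ag.Tor

open CategoryTheory AlgebraicGeometry

/-- The function field of `Y` has transcendence degree `d` over the base field. -/
def HasDim {K : CommRingCat.{0}} {Y : Scheme.{0}} (q : Y ⟶ Spec K) (d : ℕ) : Prop :=
  ∀ η : Y, (∀ y, η ⤳ y) → @Algebra.trdeg K (Y.residueField η) _ _ (sR q η).toAlgebra = d

end Pool.Agent.MP_682409_ag.Tor
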